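import Pool.Agent.Q43.Cyc.RegVar

set_option autoImplicit false

namespace Pool.Agent.Results.MP_2543de_nt.CousinsToInfinity

open Filter Topology

/-- A positive integer `m` is cyclic if `gcd(m, φ(m)) = 1`. -/
def Cyclic (m : ℕ) : Prop := 0 < m ∧ Nat.gcd m (Nat.totient m) = 1

/-- The cyclic numbers in increasing order, `c 0 < c 1 < ...`. -/
noncomputable def c (j : ℕ) : ℕ := Nat.nth Cyclic j

/-- The number of pairs of consecutive cyclic numbers between `n ^ 3` and `(n + 1) ^ 3` with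
difference `4`. -/
noncomputable def C (n : ℕ) : ℕ :=
  {j : ℕ | n ^ 3 < c j ∧ c (j + 1) < (n + 1) ^ 3 ∧ c (j + 1) - c j = 4}.ncard

/-- **Q2**: `C n → ∞`. -/
theorem result : ∀ k : ℕ, ∃ N : ℕ, ∀ n : ℕ, N ≤ n → k ≤ C n := by
  intro k
  have h := (Pool.Agent.Q43.Cyc.pairs_atTop 4 (Or.inr (Or.inl rfl))).eventually_ge_atTop k
  obtain ⟨N, hN⟩ := eventually_atTop.1 h
  refine ⟨N, fun n hn => ?_⟩
  have h1 := hN n hn
  rw [← Pool.Agent.Q43.Cyc.ncard_pairs 4 n (by norm_num)] at h1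
  exact h1

end Pool.Agent.Results.MP_2543de_nt.CousinsToInfinity
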